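import Pool.Agent.Helper61.P3.St3

/-! # Project P3 (MP_cb927e_an), module NEA (near pairs of classes) -/

set_option autoImplicit false

open MeasureTheory Set Filter Topology
open scoped ENNReal RealInnerProductSpace

namespace Pool.Agent.Helper78.P3

open Pool.Agent.Helper61.P3 Pool.Agent.Helper20.RG Pool.Agent.Helper20.EQ
open Pool.Agent.Helper68.LM (Pl BB Bd Av HL ft fm DQ)
open Pool.Agent.Helper68.EP (elt GapP)

/-! ## Measurability and the Chebyshev inequality -/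

private theorem measAv (ν : Measure Pl) [SFinite ν] (t : ℝ) (g : Pl → ℝ)
    (hg : Measurable g) : Measurable (Av ν t g) := by
  have h : StronglyMeasurable (fun z : Pl × Pl => g (z.1 - t • z.2)) :=
    (hg.comp (by fun_prop)).stronglyMeasurable
  exact h.integral_prod_right'.measurable

private theorem measY (s : ℝ) (c : Pl) (m : ℕ) (l : ℝ) (k : ℤ) (g : Pl → ℝ)
    (hg : Measurable g) : Measurable (Y s c m l k g) := by
  have h1 : SFinite (sg s) := by unfold sg; infer_instance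
  have h2 : SFinite bx := by unfold bx; infer_instance
  have h3 := measAv (sg s) ((2 : ℝ) ^ k * l) _
    (measAv bx (2 * (2 : ℝ) ^ (k - (m : ℤ))) g hg)
  exact h3.comp (measurable_id.sub measurable_const)

private theorem measZc (c : Pl) (φ τ : ℝ → ℝ) (u w : ℕ) (k : ℤ) (j : ℕ) {g : Pl → ℝ}
    (hg : BB g) : Measurable (Zc c φ τ u w k j g) :=
  (measY _ _ _ _ k g hg.1).sub (measY _ _ _ _ k g hg.1)

private theorem measEz (c : Pl) (φ τ : ℝ → ℝ) (u w : ℕ) (η : ℝ) (k : ℤ) (j : ℕ) {g : Pl → ℝ}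
    (hg : BB g) : MeasurableSet (Ez c φ τ u w η k g j) :=
  measurableSet_lt measurable_const (measurable_abs.comp (measZc c φ τ u w k j hg))

private theorem cheb (c : Pl) (φ τ : ℝ → ℝ) (u w : ℕ) {η : ℝ} (hη : 0 < η) (k : ℤ) (j : ℕ)
    {g : Pl → ℝ} (hg : BB g) :
    volume (Ez c φ τ u w η k g j) ≤
      ENNReal.ofReal (64 / η ^ 2) * ∫⁻ x, ‖Zc c φ τ u w k j g x‖ₑ ^ 2 := by
  have hm : Measurable fun x => ‖Zc c φ τ u w k j g x‖ₑ ^ 2 :=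
    ((measZc c φ τ u w k j hg).enorm).pow_const 2
  have h1 := mul_meas_ge_le_lintegral (μ := (volume : Measure Pl)) hm (ENNReal.ofReal ((η / 8) ^ 2))
  have h2 : Ez c φ τ u w η k g j ⊆
      {x | ENNReal.ofReal ((η / 8) ^ 2) ≤ ‖Zc c φ τ u w k j g x‖ₑ ^ 2} := by
    intro x hx
    have hx' : η / 8 < |Zc c φ τ u w k j g x| := hx
    show ENNReal.ofReal ((η / 8) ^ 2) ≤ ‖Zc c φ τ u w k j g x‖ₑ ^ 2
    rw [Real.enorm_eq_ofReal_abs, ← ENNReal.ofReal_pow (abs_nonneg _)]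
    exact ENNReal.ofReal_le_ofReal (pow_le_pow_left₀ (by positivity) hx'.le 2)
  have h3 : ENNReal.ofReal (64 / η ^ 2) * ENNReal.ofReal ((η / 8) ^ 2) = 1 := by
    rw [← ENNReal.ofReal_mul (by positivity)]
    have : 64 / η ^ 2 * (η / 8) ^ 2 = 1 := by
      field_simp
      norm_num
    rw [this, ENNReal.ofReal_one]
  calc volume (Ez c φ τ u w η k g j)
      ≤ volume {x | ENNReal.ofReal ((η / 8) ^ 2) ≤ ‖Zc c φ τ u w k j g x‖ₑ ^ 2} := measure_mono h2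
    _ = ENNReal.ofReal (64 / η ^ 2) * (ENNReal.ofReal ((η / 8) ^ 2) *
          volume {x | ENNReal.ofReal ((η / 8) ^ 2) ≤ ‖Zc c φ τ u w k j g x‖ₑ ^ 2}) := by
        rw [← mul_assoc, h3, one_mul]
    _ ≤ _ := by gcongr

/-! ## Elementary facts on the sets -/

private theorem locMono {C C' Λ : ℝ} {g : Pl → ℝ} {x : Pl} (h : C ≤ C') (hl : Loc C' Λ g x) :
    Loc C Λ g x := by
  intro k
  refine (lintegral_mono_set ?_).trans (hl k)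
  intro y hy
  have h2 : C * (2 : ℝ) ^ k ≤ C' * (2 : ℝ) ^ k := by gcongr
  exact ⟨hy.1.trans h2, hy.2.trans h2⟩

private theorem finLt (u : ℕ) (S : Set ℕ) (h : ∀ j ∈ S, j < 2 ^ u) : S.Finite :=
  (Set.finite_Iio (2 ^ u)).subset h

private theorem hitsHalf (c : Pl) (φ τ : ℝ → ℝ) (u ρ : ℕ) (k : ℤ) (g : Pl → ℝ) (x : Pl) {m : ℝ}
    (hm : m ≤ ((Hh c φ τ u ρ k g x).ncard : ℝ)) :
    m / 2 ≤ ((NP c φ τ u (et ρ) k g x).ncard : ℝ) ∨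
      m / 2 ≤ ((HP c φ τ u (et ρ) k g x).ncard : ℝ) := by
  have h1 : Hh c φ τ u ρ k g x ⊆ NP c φ τ u (et ρ) k g x ∪ HP c φ τ u (et ρ) k g x := by
    rintro j ⟨h1, h2⟩
    by_cases h3 : ∀ w ≤ 2 ^ (u / 8), et ρ / 2 ≤ |Zc c φ τ u w k j g x|
    · exact Or.inr ⟨h1, h3⟩
    · push Not at h3
      exact Or.inl ⟨h1, h2, h3⟩
  have f1 : (NP c φ τ u (et ρ) k g x).Finite := finLt u _ fun j hj => hj.1
  have f2 : (HP c φ τ u (et ρ) k g x).Finite := finLt u _ fun j hj => hj.1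
  have h2 : (Hh c φ τ u ρ k g x).ncard ≤
      (NP c φ τ u (et ρ) k g x).ncard + (HP c φ τ u (et ρ) k g x).ncard :=
    (Set.ncard_le_ncard h1 (f1.union f2)).trans (Set.ncard_union_le _ _)
  have h3 : ((Hh c φ τ u ρ k g x).ncard : ℝ) ≤
      ((NP c φ τ u (et ρ) k g x).ncard : ℝ) + ((HP c φ τ u (et ρ) k g x).ncard : ℝ) := by
    exact_mod_cast h2
  by_contra hcon
  push Not at hcon
  linarith [hcon.1, hcon.2]

private theorem hpLe (c : Pl) (φ τ : ℝ → ℝ) (u w : ℕ) (η : ℝ) (k : ℤ) (g : Pl → ℝ) (x : Pl)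
    (hw : w ≤ 2 ^ (u / 8)) {m : ℝ} (hm : m ≤ ((HP c φ τ u η k g x).ncard : ℝ)) :
    m ≤ ((Hw c φ τ u w (η / 2) k g x).ncard : ℝ) := by
  have h1 : HP c φ τ u η k g x ⊆ Hw c φ τ u w (η / 2) k g x := by
    rintro j ⟨h1, h2⟩
    exact ⟨h1, h2 w hw⟩
  have f2 : (Hw c φ τ u w (η / 2) k g x).Finite := finLt u _ fun j hj => hj.1
  have h2 := Set.ncard_le_ncard h1 f2
  exact hm.trans (by exact_mod_cast h2)

private theorem countWin (n : ℕ) (T' G' T G : ℕ → Prop) (hT' : ∀ i < n, T' i)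
    (h1 : {i : ℕ | i < n ∧ T' i ∧ ¬ G' i}.ncard < n / 8)
    (h2 : {i : ℕ | i < n ∧ T i ∧ ¬ G i}.ncard < n / 8) :
    n / 4 ≤ {i : ℕ | i < n ∧ G' i ∧ ¬ T i}.ncard ∨ n / 4 ≤ {i : ℕ | i < n ∧ G i}.ncard := by
  have fin : ∀ P : ℕ → Prop, {i : ℕ | i < n ∧ P i}.Finite := fun P =>
    (Set.finite_Iio n).subset fun i hi => hi.1
  have hsub : Set.Iio n ⊆ (({i : ℕ | i < n ∧ T' i ∧ ¬ G' i} ∪ {i : ℕ | i < n ∧ T i ∧ ¬ G i}) ∪
      {i : ℕ | i < n ∧ G' i ∧ ¬ T i}) ∪ {i : ℕ | i < n ∧ G i} := by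
    intro i hi
    have hi' : i < n := hi
    by_cases hg' : G' i
    · by_cases ht : T i
      · by_cases hg : G i
        · exact Or.inr ⟨hi', hg⟩
        · exact Or.inl (Or.inl (Or.inr ⟨hi', ht, hg⟩))
      · exact Or.inl (Or.inr ⟨hi', hg', ht⟩)
    · exact Or.inl (Or.inl (Or.inl ⟨hi', hT' i hi', hg'⟩))
  have h3 := Set.ncard_le_ncard hsub (((((fin _).union (fin _)).union (fin _)).union (fin _)))
  have h4 : (Set.Iio n).ncard = n := by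
    rw [Set.ncard_eq_toFinset_card' (Set.Iio n)]
    simp
  rw [h4] at h3
  have h5 := Set.ncard_union_le (({i : ℕ | i < n ∧ T' i ∧ ¬ G' i} ∪ {i : ℕ | i < n ∧ T i ∧ ¬ G i}) ∪
      {i : ℕ | i < n ∧ G' i ∧ ¬ T i}) {i : ℕ | i < n ∧ G i}
  have h6 := Set.ncard_union_le ({i : ℕ | i < n ∧ T' i ∧ ¬ G' i} ∪ {i : ℕ | i < n ∧ T i ∧ ¬ G i})
      {i : ℕ | i < n ∧ G' i ∧ ¬ T i}
  have h7 := Set.ncard_union_le {i : ℕ | i < n ∧ T' i ∧ ¬ G' i} {i : ℕ | i < n ∧ T i ∧ ¬ G i}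
  omega

private theorem avgWin (hAVE : StAVE) (n : ℕ) (hn : 8 ≤ n) (X : ℤ → ℕ → Set Pl) (Y : ℤ → Set Pl)
    (B : ℝ≥0∞) (hY : ∀ k, ∀ x ∈ Y k, n / 4 ≤ {i : ℕ | i < n ∧ x ∈ X k i}.ncard)
    (hX : ∀ i < n, ∑' k : ℤ, volume (X k i) ≤ B) : ∑' k : ℤ, volume (Y k) ≤ 8 * B := by
  have h0 : 1 ≤ n / 4 := by omega
  have hr : 1 / ((n / 4 : ℕ) : ℝ) * n ≤ 8 := by
    have h1 : n ≤ 8 * (n / 4) := by omega
    have h2 : (n : ℝ) ≤ 8 * ((n / 4 : ℕ) : ℝ) := by exact_mod_cast h1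
    have h3 : (0 : ℝ) < ((n / 4 : ℕ) : ℝ) := by exact_mod_cast h0
    rw [one_div, inv_mul_le_iff₀ h3]
    linarith
  calc ∑' k : ℤ, volume (Y k)
      ≤ ∑' k : ℤ, ENNReal.ofReal (1 / ((n / 4 : ℕ) : ℝ)) * ∑ i ∈ Finset.range n, volume (X k i) :=
        ENNReal.tsum_le_tsum fun k => hAVE n (n / 4) (X k) (Y k) h0 (hY k)
    _ = ENNReal.ofReal (1 / ((n / 4 : ℕ) : ℝ)) * ∑ i ∈ Finset.range n, ∑' k : ℤ, volume (X k i) := by
        rw [ENNReal.tsum_mul_left, Summable.tsum_finsetSum fun i _ => ENNReal.summable]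
    _ ≤ ENNReal.ofReal (1 / ((n / 4 : ℕ) : ℝ)) * ∑ i ∈ Finset.range n, B := by
        gcongr with i hi
        exact hX i (Finset.mem_range.1 hi)
    _ = ENNReal.ofReal (1 / ((n / 4 : ℕ) : ℝ) * n) * B := by
        rw [Finset.sum_const, Finset.card_range, nsmul_eq_mul, ← mul_assoc,
          ENNReal.ofReal_mul (by positivity), ENNReal.ofReal_natCast]
    _ ≤ 8 * B := by
        have h4 : ENNReal.ofReal (1 / ((n / 4 : ℕ) : ℝ) * n) ≤ 8 := by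
          refine (ENNReal.ofReal_le_ofReal hr).trans ?_
          simp
        gcongr

/-! ## Numbers -/

private theorem etEq (ρ : ℕ) : et ρ = (2 : ℝ) ^ (-((ρ : ℝ) + 1)) := by
  unfold et
  rw [← Real.rpow_intCast]
  congr 1
  push_cast
  ring

private theorem etPos (ρ : ℕ) : 0 < et ρ := by
  rw [etEq]; positivity

private theorem etOne (ρ : ℕ) : et ρ ≤ 1 := by
  rw [etEq]
  apply Real.rpow_le_one_of_one_le_of_nonpos (by norm_num)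
  have : (0 : ℝ) ≤ (ρ : ℝ) := by positivity
  linarith

private theorem etSq (ρ : ℕ) : et ρ ^ 2 = (2 : ℝ) ^ (-(2 * (ρ : ℝ) + 2)) := by
  rw [etEq, ← Real.rpow_natCast, ← Real.rpow_mul (by norm_num)]
  congr 1
  push_cast
  ring

private theorem etSqInv (ρ : ℕ) : (et ρ ^ 2)⁻¹ = (2 : ℝ) ^ (2 * (ρ : ℝ) + 2) := by
  rw [etSq, Real.rpow_neg (by norm_num), inv_inv]

private theorem pw {x y : ℝ} (h : x ≤ y) : (2 : ℝ) ^ x ≤ (2 : ℝ) ^ y :=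
  Real.rpow_le_rpow_of_exponent_le (by norm_num) h

private theorem pa (x y : ℝ) : (2 : ℝ) ^ (x + y) = (2 : ℝ) ^ x * (2 : ℝ) ^ y :=
  Real.rpow_add (by norm_num) x y

private theorem pp (x : ℝ) : (0 : ℝ) < (2 : ℝ) ^ x := by positivity

/-- the reciprocal of a large number -/
private theorem invLe {v m : ℝ} (hm : (2 : ℝ) ^ v ≤ m) : m⁻¹ ≤ (2 : ℝ) ^ (-v) := by
  rw [Real.rpow_neg (by norm_num)]
  exact inv_anti₀ (pp v) hm

private theorem numPes {C v t w m : ℝ} {ρ : ℕ} (hC : 0 ≤ C) (hm : (2 : ℝ) ^ (v - t) ≤ m)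
    (hρ : (ρ : ℝ) ≤ t) (hw : 7 / 8 * v - v + 3 * t ≤ -w) :
    C * (2 : ℝ) ^ (7 / 8 * v) / (m / 2 * et ρ ^ 2) ≤ 8 * C * (2 : ℝ) ^ (-w) := by
  have hm0 : 0 < m := (pp _).trans_le hm
  have h1 := invLe hm
  have e1 : C * (2 : ℝ) ^ (7 / 8 * v) / (m / 2 * et ρ ^ 2) =
      2 * C * ((2 : ℝ) ^ (7 / 8 * v) * m⁻¹ * (et ρ ^ 2)⁻¹) := by
    have := etPos ρ
    field_simp
  rw [e1, etSqInv]
  calc 2 * C * ((2 : ℝ) ^ (7 / 8 * v) * m⁻¹ * (2 : ℝ) ^ (2 * (ρ : ℝ) + 2))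
      ≤ 2 * C * ((2 : ℝ) ^ (7 / 8 * v) * (2 : ℝ) ^ (-(v - t)) * (2 : ℝ) ^ (2 * (ρ : ℝ) + 2)) := by
        gcongr
    _ = 8 * C * (2 : ℝ) ^ (7 / 8 * v - v + t + 2 * (ρ : ℝ)) := by
        rw [← pa, ← pa, show 7 / 8 * v + -(v - t) + (2 * (ρ : ℝ) + 2) =
          (7 / 8 * v - v + t + 2 * (ρ : ℝ)) + 2 by ring, pa _ 2]
        norm_num
        ring
    _ ≤ 8 * C * (2 : ℝ) ^ (-w) := by
        gcongr
        · norm_num
        · linarith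

private theorem numBad {C B β γ X : ℝ} {u e v : ℕ} (hC : 0 ≤ C) (hB0 : 0 ≤ B)
    (hB : B ≤ (2 : ℝ) ^ (-β)) (hX : (2 : ℝ) ^ (-γ) ≤ X)
    (hex : 2 * (u : ℝ) - β * ((e - 1 : ℕ) : ℝ) + γ + 3 * (v : ℝ) ≤ -((u : ℝ) / 20)) :
    C * (4 : ℝ) ^ u * B ^ (e - 1) / X * (2 : ℝ) ^ (3 * v) ≤ C * (2 : ℝ) ^ (-((u : ℝ) / 20)) := by
  have hX0 : 0 < X := (pp _).trans_le hX
  have h1 := invLe hX
  rw [neg_neg] at h1
  have e4 : (4 : ℝ) ^ u = (2 : ℝ) ^ (2 * (u : ℝ)) := by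
    rw [Real.rpow_mul (by norm_num), Real.rpow_natCast]
    norm_num
  have e3 : (2 : ℝ) ^ (3 * v) = (2 : ℝ) ^ (3 * (v : ℝ)) := by
    rw [← Real.rpow_natCast]
    congr 1
    push_cast
    ring
  have eB : B ^ (e - 1) ≤ (2 : ℝ) ^ (-(β * ((e - 1 : ℕ) : ℝ))) := by
    calc B ^ (e - 1) ≤ ((2 : ℝ) ^ (-β)) ^ (e - 1) := pow_le_pow_left₀ hB0 hB _
      _ = _ := by
        rw [← Real.rpow_natCast, ← Real.rpow_mul (by norm_num)]
        congr 1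
        ring
  calc C * (4 : ℝ) ^ u * B ^ (e - 1) / X * (2 : ℝ) ^ (3 * v)
      = C * ((2 : ℝ) ^ (2 * (u : ℝ)) * B ^ (e - 1) * X⁻¹ * (2 : ℝ) ^ (3 * (v : ℝ))) := by
        rw [e4, e3]
        field_simp
    _ ≤ C * ((2 : ℝ) ^ (2 * (u : ℝ)) * (2 : ℝ) ^ (-(β * ((e - 1 : ℕ) : ℝ))) * (2 : ℝ) ^ γ *
          (2 : ℝ) ^ (3 * (v : ℝ))) := by
        gcongr
    _ = C * (2 : ℝ) ^ (2 * (u : ℝ) - β * ((e - 1 : ℕ) : ℝ) + γ + 3 * (v : ℝ)) := by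
        rw [← pa, ← pa, ← pa]
        congr 2
    _ ≤ _ := by
        gcongr
        · norm_num

/-- the factor of the energies -/
private theorem numCoef {C D x v t m : ℝ} {ρ : ℕ} (hC : 0 ≤ C) (hD0 : 0 ≤ D)
    (hm : (2 : ℝ) ^ (v - t) ≤ m) (hD : D ≤ x) :
    C * D / ((m / 2) ^ 3 * et ρ ^ 2) ≤ 32 * C * x * (2 : ℝ) ^ (3 * t + 2 * (ρ : ℝ)) *
      (2 : ℝ) ^ (-(3 * v)) := by
  have hm0 : 0 < m := (pp _).trans_le hm
  have hx0 : 0 ≤ x := hD0.trans hD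
  have h1 := invLe hm
  have hm3 : m⁻¹ ^ 3 ≤ (2 : ℝ) ^ (-(3 * (v - t))) := by
    calc m⁻¹ ^ 3 ≤ ((2 : ℝ) ^ (-(v - t))) ^ 3 := pow_le_pow_left₀ (by positivity) h1 _
      _ = _ := by
        rw [← Real.rpow_natCast, ← Real.rpow_mul (by norm_num)]
        congr 1
        push_cast
        ring
  have e1 : C * D / ((m / 2) ^ 3 * et ρ ^ 2) = 8 * C * D * (m⁻¹ ^ 3 * (et ρ ^ 2)⁻¹) := by
    have := etPos ρ
    field_simp
    norm_num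
  rw [e1, etSqInv]
  calc 8 * C * D * (m⁻¹ ^ 3 * (2 : ℝ) ^ (2 * (ρ : ℝ) + 2))
      ≤ 8 * C * x * ((2 : ℝ) ^ (-(3 * (v - t))) * (2 : ℝ) ^ (2 * (ρ : ℝ) + 2)) := by
        gcongr
    _ = 8 * C * x * (2 : ℝ) ^ ((3 * t + 2 * (ρ : ℝ)) + (-(3 * v)) + 2) := by
        rw [← pa]
        congr 2
        ring
    _ = _ := by
        rw [pa _ 2, pa]
        norm_num
        ring

private theorem numFst {C₂ C₅ C₇ KK D₀ D₁' m' : ℝ} {u s ρ ρ' : ℕ} (hη : 0 < et ρ)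
    (hD₀ : D₀ = (2 : ℝ) ^ (-(s : ℝ))) (hD₁0 : 0 ≤ D₁')
    (hD₁ : D₁' ≤ 16 * (KK * C₂) * (2 : ℝ) ^ (2 * (ρ' : ℝ)))
    (hm' : (2 : ℝ) ^ ((u : ℝ) + s - s / 20000) ≤ m') (h5 : 0 ≤ C₅)
    (h7 : 0 ≤ C₇) (rρ : 20000 * (ρ : ℝ) ≤ (s : ℝ)) (rρ' : 20000 * (ρ' : ℝ) ≤ (s : ℝ)) :
    C₅ * D₁' ^ 2 * (2 : ℝ) ^ (s / 4) / ((m' / 2) ^ 3 * D₀) * (64 / et ρ ^ 2) * C₇ ≤
      524288 * (KK ^ 2 * C₂ ^ 2 * C₅ * C₇) * (2 : ℝ) ^ (-((s : ℝ) / 8)) *
        (2 : ℝ) ^ (-(3 * (u : ℝ))) := by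
  have hm0 : 0 < m' := (pp _).trans_le hm'
  have h1 := invLe hm'
  have hm3 : m'⁻¹ ^ 3 ≤ (2 : ℝ) ^ (-(3 * ((u : ℝ) + s - s / 20000))) := by
    calc m'⁻¹ ^ 3 ≤ ((2 : ℝ) ^ (-((u : ℝ) + s - s / 20000))) ^ 3 :=
          pow_le_pow_left₀ (by positivity) h1 _
      _ = _ := by
        rw [← Real.rpow_natCast, ← Real.rpow_mul (by norm_num)]
        congr 1
        push_cast
        ring
  have hD₀i : D₀⁻¹ = (2 : ℝ) ^ (s : ℝ) := by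
    rw [hD₀, Real.rpow_neg (by norm_num), inv_inv]
  have hD₀0 : 0 < D₀ := by rw [hD₀]; exact pp _
  have hDD : D₁' ^ 2 ≤ 256 * (KK ^ 2 * C₂ ^ 2) * (2 : ℝ) ^ (4 * (ρ' : ℝ)) := by
    calc D₁' ^ 2 ≤ (16 * (KK * C₂) * (2 : ℝ) ^ (2 * (ρ' : ℝ))) ^ 2 := pow_le_pow_left₀ hD₁0 hD₁ 2
      _ = _ := by
        have e1 : ((2 : ℝ) ^ (2 * (ρ' : ℝ))) ^ 2 = (2 : ℝ) ^ (4 * (ρ' : ℝ)) := by
          rw [← Real.rpow_natCast, ← Real.rpow_mul (by norm_num)]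
          congr 1
          push_cast
          ring
        rw [mul_pow, e1]
        ring
  have h4 : (2 : ℝ) ^ (s / 4) ≤ (2 : ℝ) ^ ((s : ℝ) / 4) := by
    rw [← Real.rpow_natCast]
    exact pw Nat.cast_div_le
  have e1 : C₅ * D₁' ^ 2 * (2 : ℝ) ^ (s / 4) / ((m' / 2) ^ 3 * D₀) * (64 / et ρ ^ 2) * C₇ =
      512 * (C₅ * C₇) * (D₁' ^ 2 * (2 : ℝ) ^ (s / 4) * m'⁻¹ ^ 3 * D₀⁻¹ * (et ρ ^ 2)⁻¹) := by
    field_simp
    ring
  rw [e1, hD₀i, etSqInv]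
  calc 512 * (C₅ * C₇) * (D₁' ^ 2 * (2 : ℝ) ^ (s / 4) * m'⁻¹ ^ 3 * (2 : ℝ) ^ (s : ℝ) *
        (2 : ℝ) ^ (2 * (ρ : ℝ) + 2))
      ≤ 512 * (C₅ * C₇) * ((256 * (KK ^ 2 * C₂ ^ 2) * (2 : ℝ) ^ (4 * (ρ' : ℝ))) *
        (2 : ℝ) ^ ((s : ℝ) / 4) * (2 : ℝ) ^ (-(3 * ((u : ℝ) + s - s / 20000))) *
        (2 : ℝ) ^ (s : ℝ) * (2 : ℝ) ^ (2 * (ρ : ℝ) + 2)) := by
        gcongr
    _ = 524288 * (KK ^ 2 * C₂ ^ 2 * C₅ * C₇) * ((2 : ℝ) ^ (4 * (ρ' : ℝ) + (s : ℝ) / 4 +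
        (-(3 * ((u : ℝ) + s - s / 20000))) + (s : ℝ) + 2 * (ρ : ℝ))) := by
        rw [pa _ 2, pa _ (2 * (ρ : ℝ)), pa _ (s : ℝ), pa _ (-(3 * ((u : ℝ) + s - s / 20000))),
          pa _ ((s : ℝ) / 4)]
        norm_num
        ring
    _ ≤ 524288 * (KK ^ 2 * C₂ ^ 2 * C₅ * C₇) * ((2 : ℝ) ^ (-((s : ℝ) / 8) + -(3 * (u : ℝ)))) := by
        refine mul_le_mul_of_nonneg_left (pw ?_) (by positivity)
        linarith
    _ = _ := by
        rw [pa]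
        ring

private theorem exKK : ∃ KK β : ℝ, β = 3994 ∧ 1 ≤ KK ∧ 48 / KK ≤ (2 : ℝ) ^ (-β) := by
  refine ⟨(2 : ℝ) ^ ((3994 : ℝ) + 6), 3994, rfl, Real.one_le_rpow (by norm_num) (by norm_num), ?_⟩
  generalize (3994 : ℝ) = b
  rw [pa, Real.rpow_neg (by norm_num)]
  have h1 := pp b
  have h2 : (2 : ℝ) ^ (6 : ℝ) = 64 := by norm_num
  rw [h2, div_le_iff₀ (by positivity)]
  have h3 : ((2 : ℝ) ^ b)⁻¹ * ((2 : ℝ) ^ b * 64) = 64 := by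
    field_simp
  rw [h3]
  norm_num

private theorem sumSix {ι : Type*} (f₁ f₂ f₃ f₄ f₅ f₆ : ι → ℝ≥0∞) :
    ∑' k, (f₁ k + f₂ k + f₃ k + f₄ k + f₅ k + f₆ k) =
      ∑' k, f₁ k + ∑' k, f₂ k + ∑' k, f₃ k + ∑' k, f₄ k + ∑' k, f₅ k + ∑' k, f₆ k := by
  rw [ENNReal.tsum_add, ENNReal.tsum_add, ENNReal.tsum_add, ENNReal.tsum_add, ENNReal.tsum_add]

private theorem exIcc (τ : ℝ → ℝ) (u v : ℕ) (g : Pl → ℝ) : EX τ u (min v (u + 1)) g = EX τ u v g := by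
  unfold EX
  rcases le_total v (u + 1) with h | h
  · rw [min_eq_left h]
  · rw [min_eq_right h]
    have h1 : Finset.Icc (u + 1) u = ∅ := Finset.Icc_eq_empty (by omega)
    have h2 : Finset.Icc v u = ∅ := Finset.Icc_eq_empty (by omega)
    rw [h1, h2]

private theorem finalAdd {C₁ C₃ C₄ K₅ K₆ C x y z : ℝ} (h1 : 0 ≤ C₁) (h3 : 0 ≤ C₃) (h4 : 0 ≤ C₄)
    (h5 : 0 ≤ K₅) (h6 : 0 ≤ K₆) (hC : 8 * C₁ + C₃ + 256 * C₄ + K₅ + K₆ ≤ C) (hx : 0 ≤ x)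
    (hy : 0 ≤ y) (hz : 0 ≤ z) (Q E E' I I' : ℝ≥0∞) :
    ENNReal.ofReal (8 * C₁ * x) * I + ENNReal.ofReal (8 * C₁ * x) * I' +
        ENNReal.ofReal (C₃ * x) * I' + ENNReal.ofReal (C₃ * x) * I +
        (ENNReal.ofReal (K₅ * y) * Q + ENNReal.ofReal (K₆ * z) * E') +
        (ENNReal.ofReal (256 * C₄ * y) * Q + ENNReal.ofReal (256 * C₄ * z) * E) ≤
      ENNReal.ofReal (C * y) * Q + ENNReal.ofReal (C * z) * (E + E') +
        ENNReal.ofReal (C * x) * (I + I') := by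
  have a1 : ENNReal.ofReal (8 * C₁ * x) + ENNReal.ofReal (C₃ * x) ≤ ENNReal.ofReal (C * x) := by
    rw [← ENNReal.ofReal_add (by positivity) (by positivity)]
    apply ENNReal.ofReal_le_ofReal
    nlinarith
  have a2 : ENNReal.ofReal (K₅ * y) + ENNReal.ofReal (256 * C₄ * y) ≤ ENNReal.ofReal (C * y) := by
    rw [← ENNReal.ofReal_add (by positivity) (by positivity)]
    apply ENNReal.ofReal_le_ofReal
    nlinarith
  have a3 : ENNReal.ofReal (K₆ * z) ≤ ENNReal.ofReal (C * z) := by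
    apply ENNReal.ofReal_le_ofReal
    nlinarith
  have a4 : ENNReal.ofReal (256 * C₄ * z) ≤ ENNReal.ofReal (C * z) := by
    apply ENNReal.ofReal_le_ofReal
    nlinarith
  calc _ = (ENNReal.ofReal (K₅ * y) + ENNReal.ofReal (256 * C₄ * y)) * Q +
        (ENNReal.ofReal (256 * C₄ * z) * E + ENNReal.ofReal (K₆ * z) * E') +
        ((ENNReal.ofReal (8 * C₁ * x) + ENNReal.ofReal (C₃ * x)) * I +
          (ENNReal.ofReal (8 * C₁ * x) + ENNReal.ofReal (C₃ * x)) * I') := by ring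
    _ ≤ ENNReal.ofReal (C * y) * Q + (ENNReal.ofReal (C * z) * E + ENNReal.ofReal (C * z) * E') +
        (ENNReal.ofReal (C * x) * I + ENNReal.ofReal (C * x) * I') := by gcongr
    _ = _ := by ring

theorem hNEA (hPES : Pool.Agent.Helper61.P3.StPES) (hLZB : Pool.Agent.Helper61.P3.StLZB)
    (hBAD : Pool.Agent.Helper61.P3.StBAD) (hAVE : Pool.Agent.Helper61.P3.StAVE)
    (hWIG : Pool.Agent.Helper61.P3.StWIG) (hWIA : Pool.Agent.Helper61.P3.StWIA)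
    (hWLI : Pool.Agent.Helper61.P3.StWLI) (hSHQ : Pool.Agent.Helper61.P3.StSHQ) :
    Pool.Agent.Helper61.P3.StNEA := by
  intro φ τ A c hG hA hGap
  obtain ⟨C₁, hC₁, hP⟩ := hPES φ τ A c hG hA hGap
  obtain ⟨C₂, hC₂, hL⟩ := hLZB φ τ A c hG hA hGap
  obtain ⟨C₃, U₃, hC₃, hB⟩ := hBAD φ τ A c hG hA hGap
  obtain ⟨C₄, hC₄, hW⟩ := hWIG φ τ A c hG hA hGap
  obtain ⟨C₅, hC₅, hV⟩ := hWIA φ τ A c hG hA hGap
  obtain ⟨U₆, hU₆, hQ⟩ := hWLI φ τ A hG hA hGap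
  obtain ⟨C₇, hC₇, hS⟩ := hSHQ φ τ A c hG hA hGap
  obtain ⟨KK, β, hβ, hKK1, hKKi⟩ := exKK
  obtain ⟨N₁, hN₁⟩ := pow_unbounded_of_one_lt (128000 * KK * C₂) (by norm_num : (1 : ℝ) < 2)
  have hK₅0 : 0 ≤ 4194304 * (KK ^ 2 * C₂ ^ 2 * C₅ * C₇) := by positivity
  have hK₆0 : 0 ≤ 4096 * (KK * C₂ * C₅) := by positivity
  refine ⟨C₂ + 8 * C₁ + C₃ + 256 * C₄ + 4194304 * (KK ^ 2 * C₂ ^ 2 * C₅ * C₇) +
    4096 * (KK * C₂ * C₅), max (max U₃ U₆) (max 10000 N₁), by linarith, by omega, ?_⟩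
  intro u s ρ ρ' m m' Λ Λ' g g' G hu hs1 hs2 hρ hρ' hm hm' hΛ0 hΛ4 hΛ' hΛ'4 hg hg' hg01 hg'01 hGL
  have hu3 : U₃ ≤ u := by omega
  have hu6 : U₆ ≤ u := by omega
  have hu1 : 10000 ≤ u := by omega
  have huN : N₁ ≤ u := by omega
  have ruR : (10000 : ℝ) ≤ (u : ℝ) := by exact_mod_cast hu1
  have rs1 : (2100 : ℝ) ≤ (s : ℝ) := by exact_mod_cast hs1
  have rs2 : (s : ℝ) ≤ 8 * (u : ℝ) := by exact_mod_cast hs2
  have rρ : 20000 * (ρ : ℝ) ≤ (s : ℝ) := by exact_mod_cast hρ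
  have rρ' : 20000 * (ρ' : ℝ) ≤ (s : ℝ) := by exact_mod_cast hρ'
  obtain ⟨n, hn⟩ : ∃ n, n = u / 10 := ⟨_, rfl⟩
  obtain ⟨e, he⟩ : ∃ e, e = n / 8 := ⟨_, rfl⟩
  have he1 : 1 ≤ e := by omega
  have hn8 : 8 ≤ n := by omega
  have reE : (u : ℝ) / 80 - 2 ≤ ((e - 1 : ℕ) : ℝ) := by
    have h1 : u ≤ 80 * (e - 1) + 160 := by omega
    have h2 : (u : ℝ) ≤ 80 * ((e - 1 : ℕ) : ℝ) + 160 := by exact_mod_cast h1
    linarith
  -- the densities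
  obtain ⟨D₀', hD₀'⟩ : ∃ D : ℝ, D = C₂ * Λ' / et ρ' ^ 2 := ⟨_, rfl⟩
  obtain ⟨D₁', hD₁'⟩ : ∃ D : ℝ, D = KK * D₀' := ⟨_, rfl⟩
  obtain ⟨D₀, hD₀⟩ : ∃ D : ℝ, D = (2 : ℝ) ^ (-(s : ℝ)) := ⟨_, rfl⟩
  obtain ⟨D₁, hD₁⟩ : ∃ D : ℝ, D = (2 : ℝ) ^ (-((s : ℝ) / 2)) := ⟨_, rfl⟩
  have hη := etPos ρ
  have hη' := etPos ρ'
  have hΛ'0 : 0 < Λ' := (pp _).trans_le hΛ'
  have hKK1' : 0 ≤ KK := by linarith
  have hC₂' : 0 ≤ C₂ := by linarith
  have hC₅' : 0 ≤ C₅ := by linarith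
  have hC₇' : 0 ≤ C₇ := by linarith
  have rs1' : 0 ≤ (s : ℝ) := by linarith
  have hD₀'0 : 0 < D₀' := by rw [hD₀']; positivity
  have hD₁'0 : 0 < D₁' := by rw [hD₁']; positivity
  have hD₀0 : 0 < D₀ := by rw [hD₀]; positivity
  have hD₁0 : 0 < D₁ := by rw [hD₁]; positivity
  have hD₁'le : D₁' ≤ 16 * (KK * C₂) * (2 : ℝ) ^ (2 * (ρ' : ℝ)) := by
    rw [hD₁', hD₀', div_eq_mul_inv, etSqInv, pa]
    have h1 : (2 : ℝ) ^ (2 : ℝ) = 4 := by norm_num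
    rw [h1]
    have h2 := pp (2 * (ρ' : ℝ))
    have h3 : KK * (C₂ * Λ' * ((2 : ℝ) ^ (2 * (ρ' : ℝ)) * 4)) =
      4 * (KK * C₂ * (2 : ℝ) ^ (2 * (ρ' : ℝ))) * Λ' := by ring
    rw [h3]
    have h4 : 0 ≤ 4 * (KK * C₂ * (2 : ℝ) ^ (2 * (ρ' : ℝ))) := by positivity
    nlinarith [mul_le_mul_of_nonneg_left hΛ'4 h4]
  -- large numbers of chords
  have hm1 : (8192 : ℝ) ≤ m := by
    refine le_trans ?_ hm
    have h1 : (8192 : ℝ) = (2 : ℝ) ^ (13 : ℝ) := by norm_num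
    rw [h1]
    apply pw
    linarith
  have hm'1 : (8192 : ℝ) ≤ m' := by
    refine le_trans ?_ hm'
    have h1 : (8192 : ℝ) = (2 : ℝ) ^ (13 : ℝ) := by norm_num
    rw [h1]
    apply pw
    linarith
  have hD₁'m : 4000 * D₁' ≤ m' / 2 := by
    have h1 : 128000 * KK * C₂ ≤ (2 : ℝ) ^ (u : ℝ) := by
      rw [Real.rpow_natCast]
      exact hN₁.le.trans (pow_le_pow_right₀ (by norm_num) huN)
    have h2 := pp (2 * (ρ' : ℝ))
    have h3 : 128000 * KK * C₂ * (2 : ℝ) ^ (2 * (ρ' : ℝ)) ≤ m' := by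
      calc 128000 * KK * C₂ * (2 : ℝ) ^ (2 * (ρ' : ℝ))
          ≤ (2 : ℝ) ^ (u : ℝ) * (2 : ℝ) ^ (2 * (ρ' : ℝ)) := by gcongr
        _ = (2 : ℝ) ^ ((u : ℝ) + 2 * (ρ' : ℝ)) := by rw [pa]
        _ ≤ (2 : ℝ) ^ ((u : ℝ) + s - s / 20000) := pw (by linarith)
        _ ≤ m' := hm'
    linarith
  -- the windows
  have hq : ∀ i < n, 32 * qw u i ≤ 2 ^ (u / 8) ∧ 10 * u + 20 ≤ qw u i ∧
      (∀ θ : ℝ, 400 * (nn τ u θ (qw u i) : ℝ) ≤ m) ∧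
      ∀ θ : ℝ, 400 * (nn τ (u + s) θ (qw u i) : ℝ) ≤ m' := by
    intro i hi
    obtain ⟨h1, -, h3, h4⟩ := hQ u i hu6 (by omega)
    refine ⟨h1, h3, fun θ => h4 u θ m le_rfl (by omega) (le_trans (pw ?_) hm),
      fun θ => h4 (u + s) θ m' (by omega) (by omega) (le_trans (pw ?_) hm')⟩
    · linarith
    · push_cast
      linarith
  have hqη : ∀ i < n, ∀ r : ℕ, 20000 * r ≤ s → (2 : ℝ) ^ (-(qw u i : ℤ)) ≤ et r := by
    intro i hi r hr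
    obtain ⟨-, h2, -, -⟩ := hq i hi
    unfold et
    apply zpow_le_zpow_right₀ (by norm_num)
    omega
  -- the exceptional sets
  obtain ⟨I, hI⟩ : ∃ I : ℝ≥0∞, I = ∫⁻ x, ‖g x‖ₑ ^ 2 := ⟨_, rfl⟩
  obtain ⟨I', hI'⟩ : ∃ I : ℝ≥0∞, I = ∫⁻ x, ‖g' x‖ₑ ^ 2 := ⟨_, rfl⟩
  have hN : ∑' k : ℤ, volume {x | m / 2 ≤ ((NP c φ τ u (et ρ) k g x).ncard : ℝ)} ≤
      ENNReal.ofReal (8 * C₁ * (2 : ℝ) ^ (-((u : ℝ) / 20))) * I := by
    have h1 := hP u (et ρ) (m / 2) g (by omega) hη (by linarith) hg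
    refine h1.trans ?_
    rw [hI]
    gcongr
    exact numPes (t := (s : ℝ) / 20000) (by linarith) hm (by linarith) (by linarith)
  have hN' : ∑' k : ℤ, volume {x | m' / 2 ≤ ((NP c φ τ (u + s) (et ρ') k g' x).ncard : ℝ)} ≤
      ENNReal.ofReal (8 * C₁ * (2 : ℝ) ^ (-((u : ℝ) / 20))) * I' := by
    have h1 := hP (u + s) (et ρ') (m' / 2) g' (by omega) hη' (by linarith) hg'
    refine h1.trans ?_
    rw [hI']
    gcongr
    refine numPes (t := (s : ℝ) / 20000) (by linarith) ?_ (by linarith) ?_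
    · refine le_trans (pw ?_) hm'
      push_cast
      linarith
    · push_cast
      linarith
  have hBad' : ∑' k : ℤ, volume {x | e ≤ {i : ℕ | i < n ∧ TD c φ τ (u + s) (qw u i) (et ρ') D₀' k g' x ∧
      ¬ GW c φ τ (u + s) (qw u i) (et ρ') D₁' k g' x}.ncard} ≤
      ENNReal.ofReal (C₃ * (2 : ℝ) ^ (-((u : ℝ) / 20))) * I' := by
    have h1 := hB (u + s) u e (et ρ') D₀' D₁' g' hu3 (by omega) he1 hη' hD₀'0.le hD₁'0 hg'
    rw [← hn] at h1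
    refine h1.trans ?_
    rw [hI']
    refine mul_le_mul_left (ENNReal.ofReal_le_ofReal ?_) _
    refine numBad (C := C₃) (B := 48 * D₀' / D₁') (β := β) (γ := (s : ℝ) / 20000) (by linarith)
      (by positivity) ?_ ?_ ?_
    · have h2 : 48 * D₀' / D₁' = 48 / KK := by
        rw [hD₁']
        field_simp
      rw [h2]
      exact hKKi
    · have h2 : D₁' * et ρ' ^ 2 = KK * C₂ * Λ' := by
        rw [hD₁', hD₀']
        field_simp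
      rw [h2]
      have h3 : 1 ≤ KK * C₂ := one_le_mul_of_one_le_of_one_le hKK1 hC₂
      exact hΛ'.trans (le_mul_of_one_le_left hΛ'0.le h3)
    · rw [hβ]
      push_cast
      linarith
  have hBad : ∑' k : ℤ, volume {x | e ≤ {i : ℕ | i < n ∧ TD c φ τ u (qw u i) (et ρ) D₀ k g x ∧
      ¬ GW c φ τ u (qw u i) (et ρ) D₁ k g x}.ncard} ≤
      ENNReal.ofReal (C₃ * (2 : ℝ) ^ (-((u : ℝ) / 20))) * I := by
    have h1 := hB u u e (et ρ) D₀ D₁ g hu3 (by omega) he1 hη hD₀0.le hD₁0 hg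
    rw [← hn] at h1
    refine h1.trans ?_
    rw [hI]
    refine mul_le_mul_left (ENNReal.ofReal_le_ofReal ?_) _
    refine numBad (C := C₃) (B := 48 * D₀ / D₁) (β := (s : ℝ) / 2 - 6)
      (γ := (s : ℝ) / 2 + 2 * (ρ : ℝ) + 2) (by linarith) (by positivity) ?_ ?_ ?_
    · have h2 : 48 * D₀ / D₁ = 48 * (2 : ℝ) ^ (-((s : ℝ) / 2)) := by
        rw [hD₀, hD₁, mul_div_assoc, ← Real.rpow_sub (by norm_num)]
        congr 2
        ring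
      rw [h2]
      have h3 : (2 : ℝ) ^ (-((s : ℝ) / 2 - 6)) = 64 * (2 : ℝ) ^ (-((s : ℝ) / 2)) := by
        rw [show -((s : ℝ) / 2 - 6) = 6 + -((s : ℝ) / 2) by ring, pa]
        norm_num
      rw [h3]
      have := pp (-((s : ℝ) / 2))
      linarith
    · rw [hD₁, etSq, ← pa]
      apply pw
      linarith
    · have h2 : (1044 : ℝ) ≤ (s : ℝ) / 2 - 6 := by linarith
      have h3 : (0 : ℝ) ≤ (u : ℝ) / 80 - 3 := by linarith
      have h4 : ((s : ℝ) / 2 - 6) * ((u : ℝ) / 80 - 2) ≤ ((s : ℝ) / 2 - 6) * ((e - 1 : ℕ) : ℝ) :=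
        mul_le_mul_of_nonneg_left reE (by linarith)
      have h5 : 1044 * ((u : ℝ) / 80 - 3) ≤ ((s : ℝ) / 2 - 6) * ((u : ℝ) / 80 - 3) :=
        mul_le_mul_of_nonneg_right h2 h3
      nlinarith
  -- the two kinds of windows
  obtain ⟨X₁, hX₁⟩ : ∃ X : ℤ → ℕ → Set Pl, X = fun k i =>
      {x | m' / 2 ≤ ((HP c φ τ (u + s) (et ρ') k g' x).ncard : ℝ) ∧
        GW c φ τ (u + s) (qw u i) (et ρ') D₁' k g' x ∧
        ¬ TD c φ τ u (qw u i) (et ρ) D₀ k g x} := ⟨_, rfl⟩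
  obtain ⟨X₂, hX₂⟩ : ∃ X : ℤ → ℕ → Set Pl, X = fun k i =>
      {x | m / 2 ≤ ((HP c φ τ u (et ρ) k g x).ncard : ℝ) ∧
        GW c φ τ u (qw u i) (et ρ) D₁ k g x} := ⟨_, rfl⟩
  have hb1 : ∀ i < n, ∑' k : ℤ, volume (X₁ k i) ≤
      ENNReal.ofReal (524288 * (KK ^ 2 * C₂ ^ 2 * C₅ * C₇) * (2 : ℝ) ^ (-((s : ℝ) / 8))) *
        (ENNReal.ofReal ((2 : ℝ) ^ (-(3 * (u : ℝ)))) * BQ0 τ u g) +
      ENNReal.ofReal (512 * (KK * C₂ * C₅) * (2 : ℝ) ^ ((s : ℝ) / 100)) *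
        (ENNReal.ofReal ((2 : ℝ) ^ (-(3 * ((u : ℝ) + s)))) * EX τ (u + s) (s / 4) g') := by
    intro i hi
    obtain ⟨q1, q2, q3, q4⟩ := hq i hi
    refine (hV (u + s) (qw u i) (s / 4) (2 ^ u) (et ρ') D₁' (m' / 2) D₀ g' (fun k => X₁ k i)
      (fun k j => Ez c φ τ u (32 * qw u i) (et ρ) k g j) (by omega) (by omega) (by omega) (by omega)
      (hqη i hi ρ' hρ') (etOne ρ') hg' hg'01 (by linarith) hD₁'0 hD₁'m hD₀0
      (fun j _ => by linarith [q4 (sl τ (u + s) j)])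
      (fun k j _ => measEz c φ τ u _ _ k j hg) ?_).trans ?_
    · intro k x hx
      rw [hX₁] at hx
      obtain ⟨x1, x2, x3⟩ := hx
      refine ⟨hpLe c φ τ (u + s) _ _ k g' x (q1.trans ?_) x1, x2.1, x2.2.1, x2.2.2, ?_⟩
      · exact Nat.pow_le_pow_right (by norm_num) (Nat.div_le_div_right (by omega))
      · unfold TD at x3
        exact (lt_of_not_ge x3).le
    · have k1 : ∑' k : ℤ, ∑ j ∈ Finset.range (2 ^ u), volume (Ez c φ τ u (32 * qw u i) (et ρ) k g j) ≤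
          ENNReal.ofReal (64 / et ρ ^ 2) * (ENNReal.ofReal C₇ * BQ0 τ u g) := by
        calc ∑' k : ℤ, ∑ j ∈ Finset.range (2 ^ u), volume (Ez c φ τ u (32 * qw u i) (et ρ) k g j)
            ≤ ∑' k : ℤ, ENNReal.ofReal (64 / et ρ ^ 2) * ∑ j ∈ Finset.range (2 ^ u),
              ∫⁻ x, ‖Zc c φ τ u (32 * qw u i) k j g x‖ₑ ^ 2 := by
              refine ENNReal.tsum_le_tsum fun k => ?_
              rw [Finset.mul_sum]
              exact Finset.sum_le_sum fun j _ => cheb c φ τ u _ hη k j hg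
          _ = ENNReal.ofReal (64 / et ρ ^ 2) * ∑' k : ℤ, ∑ j ∈ Finset.range (2 ^ u),
              ∫⁻ x, ‖Zc c φ τ u (32 * qw u i) k j g x‖ₑ ^ 2 := ENNReal.tsum_mul_left
          _ ≤ _ := by
              gcongr
              exact (hS u (32 * qw u i) g (by omega) hg).2.2.1
      refine add_le_add ?_ ?_
      · refine (mul_le_mul_right k1 _).trans ?_
        rw [← mul_assoc, ← mul_assoc, ← mul_assoc, ← ENNReal.ofReal_mul (by positivity),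
          ← ENNReal.ofReal_mul (by positivity), ← ENNReal.ofReal_mul (by positivity)]
        exact mul_le_mul_left (ENNReal.ofReal_le_ofReal
          (numFst hη hD₀ hD₁'0.le hD₁'le hm' hC₅' hC₇' rρ rρ')) _
      · rw [← mul_assoc, ← ENNReal.ofReal_mul (by positivity)]
        refine mul_le_mul_left (ENNReal.ofReal_le_ofReal ?_) _
        refine (numCoef (v := (u : ℝ) + s) (t := (s : ℝ) / 20000) (by linarith) hD₁'0.le hm'
          hD₁'le).trans ?_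
        have k2 : 32 * C₅ * (16 * (KK * C₂) * (2 : ℝ) ^ (2 * (ρ' : ℝ))) *
            (2 : ℝ) ^ (3 * ((s : ℝ) / 20000) + 2 * (ρ' : ℝ)) * (2 : ℝ) ^ (-(3 * ((u : ℝ) + s))) =
            512 * (KK * C₂ * C₅) * (2 : ℝ) ^ (2 * (ρ' : ℝ) + (3 * ((s : ℝ) / 20000) + 2 * (ρ' : ℝ))) *
              (2 : ℝ) ^ (-(3 * ((u : ℝ) + s))) := by
          rw [pa (2 * (ρ' : ℝ)) (3 * ((s : ℝ) / 20000) + 2 * (ρ' : ℝ))]
          ring
        rw [k2]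
        refine mul_le_mul_of_nonneg_right (mul_le_mul_of_nonneg_left (pw ?_) (by positivity)) (pp _).le
        linarith
  have hb2 : ∀ i < n, ∑' k : ℤ, volume (X₂ k i) ≤
      ENNReal.ofReal (32 * C₄ * (2 : ℝ) ^ (-((s : ℝ) / 8))) *
        (ENNReal.ofReal ((2 : ℝ) ^ (-(3 * (u : ℝ)))) * BQ0 τ u g) +
      ENNReal.ofReal (32 * C₄ * (2 : ℝ) ^ ((s : ℝ) / 100)) *
        (ENNReal.ofReal ((2 : ℝ) ^ (-(3 * (u : ℝ)))) * EX τ u (s / 4) g) := by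
    intro i hi
    obtain ⟨q1, q2, q3, q4⟩ := hq i hi
    refine (hW u (qw u i) (min (s / 4) (u + 1)) (et ρ) D₁ (m / 2) g (fun k => X₂ k i)
      (by omega) (by omega) (by omega) (by omega)
      (hqη i hi ρ hρ) (etOne ρ) hg hg01 (by linarith) hD₁0 ?_
      (fun j _ => by linarith [q3 (sl τ u j)]) ?_).trans ?_
    · have h1 : D₁ ≤ 1 := by
        rw [hD₁]
        apply Real.rpow_le_one_of_one_le_of_nonpos (by norm_num)
        linarith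
      linarith
    · intro k x hx
      rw [hX₂] at hx
      obtain ⟨x1, x2⟩ := hx
      exact ⟨hpLe c φ τ u _ _ k g x q1 x1, x2.1, x2.2.1⟩
    · rw [exIcc, mul_add, ← mul_assoc, ← mul_assoc, ← mul_assoc, ← ENNReal.ofReal_mul (by positivity),
        ← ENNReal.ofReal_mul (by positivity), ← ENNReal.ofReal_mul (by positivity)]
      have k1 := numCoef (C := C₄) (v := (u : ℝ)) (t := (s : ℝ) / 20000) (ρ := ρ) (by linarith)
        hD₁0.le hm hD₁.le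
      have k3 : (2 : ℝ) ^ (min (s / 4) (u + 1)) ≤ (2 : ℝ) ^ ((s : ℝ) / 4) := by
        rw [← Real.rpow_natCast]
        apply pw
        have h2 : ((min (s / 4) (u + 1) : ℕ) : ℝ) ≤ ((s / 4 : ℕ) : ℝ) := by
          exact_mod_cast min_le_left _ _
        have h3 : ((s / 4 : ℕ) : ℝ) ≤ (s : ℝ) / 4 := Nat.cast_div_le
        linarith
      refine add_le_add (mul_le_mul_left (ENNReal.ofReal_le_ofReal ?_) _)
        (mul_le_mul_left (ENNReal.ofReal_le_ofReal ?_) _)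
      · calc C₄ * D₁ / ((m / 2) ^ 3 * et ρ ^ 2) * (2 : ℝ) ^ (min (s / 4) (u + 1))
            ≤ (32 * C₄ * (2 : ℝ) ^ (-((s : ℝ) / 2)) * (2 : ℝ) ^ (3 * ((s : ℝ) / 20000) + 2 * (ρ : ℝ)) *
              (2 : ℝ) ^ (-(3 * (u : ℝ)))) * (2 : ℝ) ^ ((s : ℝ) / 4) := by gcongr
          _ = 32 * C₄ * (2 : ℝ) ^ (-((s : ℝ) / 2) + (3 * ((s : ℝ) / 20000) + 2 * (ρ : ℝ)) +
              (s : ℝ) / 4) * (2 : ℝ) ^ (-(3 * (u : ℝ))) := by
              rw [pa _ ((s : ℝ) / 4), pa (-((s : ℝ) / 2))]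
              ring
          _ ≤ _ := by
              refine mul_le_mul_of_nonneg_right (mul_le_mul_of_nonneg_left (pw ?_) (by positivity))
                (pp _).le
              linarith
      · refine k1.trans ?_
        have h4 : 32 * C₄ * (2 : ℝ) ^ (-((s : ℝ) / 2)) *
            (2 : ℝ) ^ (3 * ((s : ℝ) / 20000) + 2 * (ρ : ℝ)) * (2 : ℝ) ^ (-(3 * (u : ℝ))) =
            32 * C₄ * (2 : ℝ) ^ (-((s : ℝ) / 2) + (3 * ((s : ℝ) / 20000) + 2 * (ρ : ℝ))) *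
              (2 : ℝ) ^ (-(3 * (u : ℝ))) := by
          rw [pa (-((s : ℝ) / 2))]
          ring
        rw [h4]
        refine mul_le_mul_of_nonneg_right (mul_le_mul_of_nonneg_left (pw ?_) (by positivity)) (pp _).le
        linarith
  have hQ1 := avgWin hAVE n hn8 X₁ (fun k => {x | n / 4 ≤ {i : ℕ | i < n ∧ x ∈ X₁ k i}.ncard}) _
    (fun k x hx => hx) hb1
  have hQ2 := avgWin hAVE n hn8 X₂ (fun k => {x | n / 4 ≤ {i : ℕ | i < n ∧ x ∈ X₂ k i}.ncard}) _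
    (fun k x hx => hx) hb2
  -- the inclusion
  have hsub : ∀ k : ℤ, volume {x | x ∈ G ∧ m ≤ ((Hh c φ τ u ρ k g x).ncard : ℝ) ∧
      m' ≤ ((Hh c φ τ (u + s) ρ' k g' x).ncard : ℝ)} ≤
      volume {x | m / 2 ≤ ((NP c φ τ u (et ρ) k g x).ncard : ℝ)} +
      volume {x | m' / 2 ≤ ((NP c φ τ (u + s) (et ρ') k g' x).ncard : ℝ)} +
      volume {x | e ≤ {i : ℕ | i < n ∧ TD c φ τ (u + s) (qw u i) (et ρ') D₀' k g' x ∧
        ¬ GW c φ τ (u + s) (qw u i) (et ρ') D₁' k g' x}.ncard} +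
      volume {x | e ≤ {i : ℕ | i < n ∧ TD c φ τ u (qw u i) (et ρ) D₀ k g x ∧
        ¬ GW c φ τ u (qw u i) (et ρ) D₁ k g x}.ncard} +
      volume {x | n / 4 ≤ {i : ℕ | i < n ∧ x ∈ X₁ k i}.ncard} +
      volume {x | n / 4 ≤ {i : ℕ | i < n ∧ x ∈ X₂ k i}.ncard} := by
    intro k
    refine (measure_mono ?_).trans ((measure_union_le _ _).trans (add_le_add ((measure_union_le _ _).trans
      (add_le_add ((measure_union_le _ _).trans (add_le_add ((measure_union_le _ _).trans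
      (add_le_add (measure_union_le _ _) le_rfl)) le_rfl)) le_rfl)) le_rfl))
    rintro x ⟨hxG, hx1, hx2⟩
    rcases hitsHalf c φ τ u ρ k g x hx1 with h1 | h1
    · exact Or.inl (Or.inl (Or.inl (Or.inl (Or.inl h1))))
    rcases hitsHalf c φ τ (u + s) ρ' k g' x hx2 with h2 | h2
    · exact Or.inl (Or.inl (Or.inl (Or.inl (Or.inr h2))))
    by_cases h3 : e ≤ {i : ℕ | i < n ∧ TD c φ τ (u + s) (qw u i) (et ρ') D₀' k g' x ∧
        ¬ GW c φ τ (u + s) (qw u i) (et ρ') D₁' k g' x}.ncard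
    · exact Or.inl (Or.inl (Or.inl (Or.inr h3)))
    by_cases h4 : e ≤ {i : ℕ | i < n ∧ TD c φ τ u (qw u i) (et ρ) D₀ k g x ∧
        ¬ GW c φ τ u (qw u i) (et ρ) D₁ k g x}.ncard
    · exact Or.inl (Or.inl (Or.inr h4))
    push Not at h3 h4
    rw [he] at h3 h4
    have hTD : ∀ i < n, TD c φ τ (u + s) (qw u i) (et ρ') D₀' k g' x := by
      intro i _
      have h5 := (hL (u + s) (32 * qw u i) k Λ' g' x (by omega) hΛ'0.le hg' hg'01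
        (locMono (by linarith) (hGL x hxG).2)).2 (et ρ') hη'
      unfold TD
      rw [hD₀']
      push_cast at h5
      exact h5
    rcases countWin n _ _ _ _ hTD h3 h4 with h5 | h5
    · refine Or.inl (Or.inr ?_)
      refine h5.trans (Set.ncard_le_ncard ?_ ((Set.finite_Iio n).subset fun i hi => hi.1))
      rintro i ⟨i1, i2, i3⟩
      rw [hX₁]
      exact ⟨i1, h2, i2, i3⟩
    · refine Or.inr ?_
      refine h5.trans (Set.ncard_le_ncard ?_ ((Set.finite_Iio n).subset fun i hi => hi.1))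
      rintro i ⟨i1, i2⟩
      rw [hX₂]
      exact ⟨i1, h1, i2⟩
  refine (ENNReal.tsum_le_tsum hsub).trans ?_
  rw [sumSix, ← hI, ← hI']
  have eight : ∀ (a b y z : ℝ) (Q E : ℝ≥0∞), 8 * (ENNReal.ofReal (a * y) * Q +
      ENNReal.ofReal (b * z) * E) = ENNReal.ofReal (8 * a * y) * Q + ENNReal.ofReal (8 * b * z) * E := by
    intro a b y z Q E
    rw [mul_assoc 8 a y, mul_assoc 8 b z, ENNReal.ofReal_mul (by norm_num : (0 : ℝ) ≤ 8),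
      ENNReal.ofReal_mul (by norm_num : (0 : ℝ) ≤ 8)]
    simp only [ENNReal.ofReal_ofNat]
    ring
  rw [eight] at hQ1 hQ2
  refine (add_le_add (add_le_add (add_le_add (add_le_add (add_le_add hN hN') hBad') hBad) hQ1)
    hQ2).trans ?_
  have e1 : 8 * (524288 * (KK ^ 2 * C₂ ^ 2 * C₅ * C₇)) = 4194304 * (KK ^ 2 * C₂ ^ 2 * C₅ * C₇) := by
    ring
  have e2 : 8 * (512 * (KK * C₂ * C₅)) = 4096 * (KK * C₂ * C₅) := by ring
  have e3 : 8 * (32 * C₄) = 256 * C₄ := by ring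
  rw [e1, e2, e3]
  exact finalAdd (by linarith) (by linarith) (by linarith) hK₅0 hK₆0 (by linarith) (pp _).le
    (pp _).le (pp _).le _ _ _ _ _

end Pool.Agent.Helper78.P3
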